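import Pool.Agent.Helper7_C4N.Rou6

/-!
# ROU: one round (from EUL, SMP, BASE, MRK, WALKS, LFO)
-/

set_option autoImplicit false
set_option linter.unusedSectionVars false

open scoped BigOperators Classical

noncomputable section

namespace Pool.Agent.C4N.H7

open Finset
open Pool.Agent.C4W (outN inN NReg)

theorem rou (hEUL : EULStmt) (hSMP : SMPStmt) (hBASE : BASEStmt) (hMRK : MRKStmt)
    (hW : C4K.WALKSLStmt) (hLFO : LFOStmt) : ROUStmt := by
  intro C L c hc hc'
  obtain ⟨C1, hSMP'⟩ := hSMP C L c hc hc'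
  obtain ⟨k1, hB'⟩ := hBASE (c / 3) (by linarith) (by linarith)
  obtain ⟨C2, hM'⟩ := hMRK C L (c / 3) (c / 9) (by linarith) (by linarith) (by linarith)
    (by linarith)
  obtain ⟨k2, C0, hW'⟩ := hW 2
  obtain ⟨k3, hpr⟩ := prime_M
  refine ⟨C + 1 + C0 + C1 + C2, c / 60, by linarith, by linarith, ?_⟩
  intro δ hδ
  obtain ⟨K1, hSMP''⟩ := hSMP' (δ / (4 * (L + 1))) (by positivity)
  obtain ⟨K2, hM''⟩ := hM' (δ / 4) (by linarith)
  obtain ⟨K3, hrn⟩ := rn C L c δ hc hc' hδ
  obtain ⟨K4, hK4⟩ := exists_nat_ge k2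
  refine ⟨K1 + K2 + K3 + K4 + k1 + k3, ?_⟩
  intro K hK A Q hA hQ V _ R E hSt hER hEd
  have hN := hrn K (K + C) (ss (K + C)) (by omega) rfl rfl
  obtain ⟨k, hk⟩ : ∃ k : ℕ, k = K + C := ⟨_, rfl⟩
  rw [← hk] at hN
  obtain ⟨s, hs⟩ : ∃ s : ℕ, s = ss k := ⟨_, rfl⟩
  rw [← hs] at hN
  have hs1 := hN.s1
  have hsK := hN.sK
  have hK1 : (1 : ℝ) ≤ K := by exact_mod_cast hN.K1
  have hKk : (K : ℝ) ≤ k := by
    have : K ≤ k := by omega
    exact_mod_cast this
  rcases isEmpty_or_nonempty V with hV | ⟨⟨x0⟩⟩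
  · -- no vertices
    have hKs : K - (K - s) = s := by omega
    refine ⟨K - s, fun _ => ⊥, ⊥, Nat.sub_le _ _, ?_, bot_le, ?_, ?_, ?_, ?_, ?_⟩
    · intro i
      refine ⟨?_, fun v => (hV.false v).elim⟩
      intro v
      exact (hV.false v).elim
    · ext x y
      exact (hV.false x).elim
    · rw [hKs]
      exact hN.lo
    · rw [hKs]
      have := hN.up
      have hs0 : (0 : ℝ) ≤ s := Nat.cast_nonneg s
      linarith
    · refine ⟨fun u => (hV.false u).elim, fun v => (hV.false v).elim, fun v => (hV.false v).elim,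
        fun v => (hV.false v).elim, fun a x => (hV.false x).elim⟩
    · exact fun v => (hV.false v).elim
  · obtain ⟨O, hO⟩ := hEUL V R
    obtain ⟨M, hMp, hMlo, hMhi⟩ := hpr k (by omega)
    have hP : Prm K C M k s := ⟨hk, hs, hMp, hMlo, hMhi⟩
    obtain ⟨ω, β, m, hBI, hopt, hct1, -, hE1⟩ :=
      hSMP'' K M k s (by omega) hP A Q hA hQ V R E O hSt hER hEd hO
    have hk'0 : 0 ≤ (K : ℝ) - 40 * s := by
      have : (40 : ℝ) * s ≤ K := by exact_mod_cast hsK
      linarith
    obtain ⟨n, f, Z, Zc, hBO, -⟩ := hB' k s M (by omega) hs hMp hMlo hMhi ((K : ℝ) - 40 * s) V R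
      (Rf O s ω) (Og O s ω) β m ∅ hk'0 hBI (by
        intro g x
        rw [inter_empty, inter_empty, card_empty, mul_zero]
        exact ⟨Nat.zero_le _, Nat.zero_le _⟩)
    obtain ⟨hn1, hn2⟩ := n_bd hN (cb := c / 3) (by linarith) hMlo hMp.two_le hBI hBO.nn x0
    have hA' : 1 ≤ (K : ℝ) ^ (δ / (4 * (L + 1))) * A ^ L := by
      have e1 : 1 ≤ (K : ℝ) ^ (δ / (4 * (L + 1))) := Real.one_le_rpow hK1 (by positivity)
      have e2 : 1 ≤ A ^ L := one_le_pow₀ hA
      nlinarith
    obtain ⟨η, hg1, hg2, hmk, hm5, hmS, hct2, hE2, -, -, -⟩ :=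
      hM'' K M k s (by omega) hP _ Q hA' hQ V R E O ω m n f Z
        ((univ.filter fun u => dg R u ≠ 2 * K) ∪ Z) Zc hSt.c4 (fun v => ⟨hSt.lo v, hSt.hi v⟩)
        hER hEd hO hBO hn1 hn2 hct1 (s_sp hN hBO hSt.sp) (s_sp2 hN hBO hopt)
    have hnK : n ≤ K := by omega
    -- WALKS
    have hsub : ∀ i x y, f i x = some y → R.Adj x y := fun i x y h =>
      hBI.sub (x, y) (hBO.arc i x y h)
    obtain ⟨D, hout, hlin⟩ := hW' V R.Adj (pool (Og O s ω) f) n f (fun i => Mk s η f i) (k : ℝ)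
      (((K : ℝ) - n) * s / K) ((k : ℝ) ^ (-0.48 : ℝ)) V
      (fun v (_ : Fin n) u => if (TT R s ω η).Adj v u then 1 / (s : ℝ) else 0)
      (by
        have h1 : (K4 : ℝ) ≤ K := by
          have : K4 ≤ K := by omega
          exact_mod_cast this
        linarith)
      (nh hN hn1 hn2) (c4f hSt.c4)
      (by
        rintro x y ⟨⟨g, hg⟩, -⟩
        exact hBI.sub (x, y) (Or.inr ⟨g, hg⟩))
      hBO.inj
      (by
        intro i x y h
        exact ⟨hsub i x y h, fun hp => hp.2 i h⟩)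
      hBO.dis
      (by
        rintro i x ⟨y, hy, -⟩
        exact ⟨y, hy⟩)
      hg1 hg2
      (by
        intro i x j hj h
        have h1 : (M : ℝ) ≤ 4 * j := by exact_mod_cast hBO.len i x j hj h
        linarith)
      hmk (linh hN hO hBI hSt.hi hm5)
    -- the graphs
    have hor : ∀ i x y, f i x = some y → O x y := by
      intro i x y h
      rcases hBO.arc i x y h with h1 | ⟨g, h1⟩
      · exact h1.1
      · exact h1.1
    have hoR : ∀ x y, O x y → R.Adj x y := fun x y h => (hO.adj x y).2 (Or.inl h)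
    obtain ⟨F, hfr⟩ := mk_frs hLFO (D := D) hout.inj hout.acy
      (by
        intro i x y h
        rcases hout.arc i x y h with h1 | ⟨-, ⟨g, hg⟩, -⟩
        · exact hor i x y h1
        · exact hg.1) hout.dis hoR hO.asy
    have hTT : rest R F ≤ TT R s ω η := rest_TT hO hfr hBO.cov hout.unm
    have hmiss := fun v => miss_le (fun i => ⟨R.Adj, pool (Og O s ω) f, f i, Mk s η f i⟩) f D
      (fun _ => rfl) hout hBO.one v
    refine ⟨n, F, rest R F, hnK, hfr.lf, rest_le R F, rest_sup R F hfr.le, ?_, ?_, ?_, ?_⟩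
    · refine hN.lo.trans ?_
      have : s ≤ K - n := by omega
      exact_mod_cast this
    · refine le_trans ?_ hN.up
      have : K - n ≤ 41 * s := by omega
      exact_mod_cast this
    · refine ⟨?_, ?_, ?_, ?_, ?_⟩
      · intro u v x y huv h1 h2 h3 h4
        exact hSt.c4 u v x y huv h1.1 h2.1 h3.1 h4.1
      · intro v
        have h1 := hfr.rest v
        have h2 := hSt.lo v
        omega
      · intro v
        have h1 := hfr.rest v
        have h2 := hSt.hi v
        have h3 := hmiss v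
        omega
      · intro v
        exact (new_sp hs1 hO hfr (fun i => ⟨R.Adj, pool (Og O s ω) f, f i, Mk s η f i⟩)
          (fun _ => rfl) hBO hTT hopt (by
            intro x
            have h1 := hmS x
            rw [show (-(c / 9 / 2) : ℝ) = -(c / 18) by ring] at h1
            exact h1) hlin hnK v).trans (new_sp' hN hc hn1)
      · exact new_ct hN hδ hn1 hA hQ hTT hct2
    · intro v
      have h1 : ((rest R F ⊓ E).neighborSet v) ⊆
          {y | E.Adj v y ∧ typ K s (ω s(v, y)) ≠ none} ∪ {y | E.Adj v y ∧ mkd s η v y} := by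
        intro y hy
        have h2 : (rest R F).Adj v y ∧ E.Adj v y := hy
        rcases (hTT h2.1).2 with h3 | h3
        · exact Or.inl ⟨h2.2, h3⟩
        · exact Or.inr ⟨h2.2, h3⟩
      have h2 : dg (rest R F ⊓ E) v ≤ _ :=
        (Set.ncard_le_ncard h1 (Set.toFinite _)).trans (Set.ncard_union_le _ _)
      have h3 := hE1 v
      have h4 := hE2 v
      omega

end Pool.Agent.C4N.H7
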