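import Pool.Agent.Helper7_C4N.Rou3

/-!
# ROU, part 4: the sampled graph, sparsity, path counts
-/

set_option autoImplicit false
set_option linter.unusedSectionVars false

open scoped BigOperators Classical

noncomputable section

namespace Pool.Agent.C4N.H7

open Finset
open Pool.Agent.C4W (outN inN NReg)

variable {V : Type} [Fintype V]

/-- monotonicity of the path counts -/
lemma npw_mono {w w' : V → V → ℝ} (h0 : ∀ x y, 0 ≤ w x y) (h : ∀ x y, w x y ≤ w' x y) (a : ℕ)
    (x y : V) : npw w a x y ≤ npw w' a x y := by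
  unfold npw
  apply Finset.sum_le_sum
  intro z _
  exact Finset.prod_le_prod (fun i _ => h0 _ _) fun i _ => h _ _

lemma ind_nonneg (G : SimpleGraph V) (x y : V) : 0 ≤ ind G x y := by
  unfold ind; split_ifs <;> norm_num

lemma ind_mono {G G' : SimpleGraph V} (h : G ≤ G') (x y : V) : ind G x y ≤ ind G' x y := by
  unfold ind
  by_cases h1 : G.Adj x y
  · rw [if_pos h1, if_pos (h h1)]
  · rw [if_neg h1]; split_ifs <;> norm_num

/-- change of the parameters of `Cnt` -/
lemma cnt_mono {G G' : SimpleGraph V} (h : G ≤ G') {L : ℕ} {A A' κ κ' Q : ℝ} (hA : 0 ≤ A)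
    (hκ0 : 0 ≤ κ) (hκ : κ ≤ 4 * κ') (hκ' : 0 ≤ κ') (hQ : 1 ≤ Q) (hAA : 4 ^ L * A ≤ A')
    (hc : Cnt (ind G') L A κ Q) : Cnt (ind G) L A' κ' Q := by
  intro a x y ha haL hxy
  refine (npw_mono (ind_nonneg G) (ind_mono h) a x y).trans ((hc a x y ha haL hxy).trans ?_)
  have h4 : (1 : ℝ) ≤ 4 ^ L := one_le_pow₀ (by norm_num)
  have e1 : max 1 (κ ^ a / Q) ≤ 4 ^ L * max 1 (κ' ^ a / Q) := by
    apply max_le
    · calc (1 : ℝ) ≤ 4 ^ L * 1 := by linarith
        _ ≤ _ := mul_le_mul_of_nonneg_left (le_max_left _ _) (by linarith)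
    · calc κ ^ a / Q ≤ (4 * κ') ^ a / Q := by
            apply div_le_div_of_nonneg_right _ (by linarith)
            exact pow_le_pow_left₀ hκ0 hκ a
        _ = 4 ^ a * (κ' ^ a / Q) := by rw [mul_pow]; ring
        _ ≤ 4 ^ L * (κ' ^ a / Q) := by
            apply mul_le_mul_of_nonneg_right _ (by positivity)
            exact pow_le_pow_right₀ (by norm_num) haL
        _ ≤ _ := mul_le_mul_of_nonneg_left (le_max_right _ _) (by linarith)
  calc A * max 1 (κ ^ a / Q) ≤ A * (4 ^ L * max 1 (κ' ^ a / Q)) :=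
        mul_le_mul_of_nonneg_left e1 hA
    _ = 4 ^ L * A * max 1 (κ' ^ a / Q) := by ring
    _ ≤ A' * max 1 (κ' ^ a / Q) :=
        mul_le_mul_of_nonneg_right hAA (le_trans zero_le_one (le_max_left _ _))

/-- an adjacent optional edge is an optional arc in one direction -/
lemma opt_arc {K s : ℕ} {R : SimpleGraph V} {O : V → V → Prop} {ω : Sym2 V → Fin K}
    (hO : Ori R O) {v u : V} (h : R.Adj v u) (ht : typ K s (ω s(v, u)) ≠ none) :
    ∃ g : Fin 40, u ∈ outN (Og O s ω g) v ∨ u ∈ inN (Og O s ω g) v := by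
  obtain ⟨g, hg⟩ := Option.ne_none_iff_exists'.1 ht
  refine ⟨g, ?_⟩
  unfold outN inN
  simp only [mem_filter, mem_univ, true_and]
  rcases (hO.adj v u).1 h with h1 | h1
  · left; exact ⟨h1, hg⟩
  · right
    refine ⟨h1, ?_⟩
    rw [Sym2.eq_swap]
    exact hg

/-- a finset inside a set -/
lemma card_le_nc (U : Finset V) (S : Set V) (h : ∀ u ∈ U, u ∈ S) : U.card ≤ S.ncard := by
  rw [← Set.ncard_coe_finset U]
  exact Set.ncard_le_ncard (fun u hu => h u hu) (Set.toFinite S)

/-- counting optional neighbours with a property -/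
lemma opt_card {K s : ℕ} {R : SimpleGraph V} {O : V → V → Prop} {ω : Sym2 V → Fin K}
    (hO : Ori R O) (v : V) (Q : V → Prop) (B : ℝ)
    (h : ∀ g : Fin 40, ∀ W : Finset V, (∀ u ∈ W, Q u) →
      (W ⊆ outN (Og O s ω g) v ∨ W ⊆ inN (Og O s ω g) v) → (W.card : ℝ) ≤ B)
    (U : Finset V) (hU : ∀ u ∈ U, R.Adj v u ∧ typ K s (ω s(v, u)) ≠ none ∧ Q u) :
    (U.card : ℝ) ≤ 80 * B := by
  have h1 : U ⊆ (univ : Finset (Fin 40)).biUnion fun g =>
        (U ∩ outN (Og O s ω g) v) ∪ (U ∩ inN (Og O s ω g) v) := by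
    intro u hu
    obtain ⟨h1, h2, h3⟩ := hU u hu
    obtain ⟨g, hg⟩ := opt_arc hO h1 h2
    rw [mem_biUnion]
    refine ⟨g, mem_univ _, ?_⟩
    rw [mem_union, mem_inter, mem_inter]
    rcases hg with hg | hg
    · exact Or.inl ⟨hu, hg⟩
    · exact Or.inr ⟨hu, hg⟩
  have h2 : (U.card : ℝ) ≤
      ∑ g : Fin 40, (((U ∩ outN (Og O s ω g) v) ∪ (U ∩ inN (Og O s ω g) v)).card : ℝ) := by
    have := (Finset.card_le_card h1).trans Finset.card_biUnion_le
    exact_mod_cast this
  refine h2.trans ?_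
  calc ∑ g : Fin 40, (((U ∩ outN (Og O s ω g) v) ∪ (U ∩ inN (Og O s ω g) v)).card : ℝ)
      ≤ ∑ _g : Fin 40, (2 * B) := by
        apply Finset.sum_le_sum
        intro g _
        have h3 : (((U ∩ outN (Og O s ω g) v) ∪ (U ∩ inN (Og O s ω g) v)).card : ℝ) ≤
            (U ∩ outN (Og O s ω g) v).card + (U ∩ inN (Og O s ω g) v).card := by
          exact_mod_cast Finset.card_union_le _ _
        have h4 := h g (U ∩ outN (Og O s ω g) v)
          (fun u hu => (hU u (mem_of_mem_inter_left hu)).2.2) (Or.inl inter_subset_right)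
        have h5 := h g (U ∩ inN (Og O s ω g) v)
          (fun u hu => (hU u (mem_of_mem_inter_left hu)).2.2) (Or.inr inter_subset_right)
        linarith
    _ = 80 * B := by
        rw [Finset.sum_const, Finset.card_univ, Fintype.card_fin, nsmul_eq_mul]
        push_cast
        ring

/-- the degree of the sampled graph -/
lemma TT_dg {k K s M : ℕ} {cb : ℝ} {R : SimpleGraph V} {O : V → V → Prop}
    {ω η : Sym2 V → Fin K} (hO : Ori R O) {k' : ℝ} {Rf' : Set (V × V)}
    {β : Fin 40 → V → V → ℝ} {m : Fin 40 → ℕ} (hB : BI V k s M cb k' R Rf' (Og O s ω) β m)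
    (ht : (k : ℝ) ^ (-0.4 : ℝ) ≤ 1 / 1000) (v : V)
    (hm : ({y | R.Adj v y ∧ mkd s η v y}.ncard : ℝ) ≤ 5 * s) (U : Finset V)
    (hU : ∀ u ∈ U, (TT R s ω η).Adj v u) : (U.card : ℝ) ≤ 100 * s := by
  have hs : (0 : ℝ) ≤ s := Nat.cast_nonneg s
  obtain ⟨U1, hU1⟩ : ∃ U1 : Finset V, U1 = U.filter fun u => typ K s (ω s(v, u)) ≠ none :=
    ⟨_, rfl⟩
  have h1 : (U1.card : ℝ) ≤ 80 * (s * (1 + 1 / 1000)) := by
    apply opt_card (ω := ω) (s := s) hO v (fun _ => True)
    · intro g W _ hW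
      have h2 := hB.reg g v
      rw [abs_le, abs_le] at h2
      have h3 : (s : ℝ) * (k : ℝ) ^ (-0.4 : ℝ) ≤ s * (1 / 1000) :=
        mul_le_mul_of_nonneg_left ht hs
      rcases hW with hW | hW
      · have h4 : (W.card : ℝ) ≤ (outN (Og O s ω g) v).card := by
          exact_mod_cast Finset.card_le_card hW
        linarith [h2.1.2]
      · have h4 : (W.card : ℝ) ≤ (inN (Og O s ω g) v).card := by
          exact_mod_cast Finset.card_le_card hW
        linarith [h2.2.2]
    · intro u hu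
      rw [hU1, mem_filter] at hu
      exact ⟨(hU u hu.1).1, hu.2, trivial⟩
  have h2 : ((U \ U1).card : ℝ) ≤ 5 * s := by
    refine le_trans ?_ hm
    have h3 := card_le_nc (U \ U1) {y | R.Adj v y ∧ mkd s η v y} (by
      intro u hu
      rw [mem_sdiff] at hu
      have h4 := hU u hu.1
      refine ⟨h4.1, ?_⟩
      rcases h4.2 with h | h
      · exact absurd (by rw [hU1, mem_filter]; exact ⟨hu.1, h⟩) hu.2
      · exact h)
    exact_mod_cast h3
  have h3 : (U.card : ℝ) ≤ U1.card + (U \ U1).card := by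
    have h4 : U ⊆ U1 ∪ (U \ U1) := by
      intro u hu
      rw [mem_union, mem_sdiff]
      by_cases h : u ∈ U1
      · exact Or.inl h
      · exact Or.inr ⟨hu, h⟩
    exact_mod_cast (Finset.card_le_card h4).trans (Finset.card_union_le _ _)
  linarith

end Pool.Agent.C4N.H7
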