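import Pool.Agent.C4N.Stm
import Pool.Agent.C4K.StNumB

/-!
# ROU, part 1: the graph part of one round
-/

set_option autoImplicit false

open scoped BigOperators Classical

noncomputable section

namespace Pool.Agent.C4N.H7

open Finset
open Pool.Agent.C4W (outN inN NReg)

variable {V : Type} [Fintype V]

lemma dg_card (G : SimpleGraph V) (v : V) : dg G v = (univ.filter fun u => G.Adj v u).card := by
  unfold dg
  rw [Set.ncard_eq_toFinset_card']
  congr 1
  ext u
  simp

/-- what is left after removing the graphs `F i` -/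
def rest (R : SimpleGraph V) {n : ℕ} (F : Fin n → SimpleGraph V) : SimpleGraph V where
  Adj x y := R.Adj x y ∧ ∀ i, ¬ (F i).Adj x y
  symm := ⟨fun x y h => ⟨h.1.symm, fun i h' => h.2 i h'.symm⟩⟩
  loopless := ⟨fun _ h => h.1.ne rfl⟩

lemma rest_le (R : SimpleGraph V) {n : ℕ} (F : Fin n → SimpleGraph V) : rest R F ≤ R :=
  fun _ _ h => h.1

lemma rest_sup (R : SimpleGraph V) {n : ℕ} (F : Fin n → SimpleGraph V) (hF : ∀ i, F i ≤ R) :
    rest R F ⊔ (⨆ i, F i) = R := by
  ext x y
  rw [SimpleGraph.sup_adj, SimpleGraph.iSup_adj]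
  constructor
  · rintro (h | ⟨i, h⟩)
    · exact h.1
    · exact hF i h
  · intro h
    by_cases hx : ∃ i, (F i).Adj x y
    · exact Or.inr hx
    · push Not at hx
      exact Or.inl ⟨h, hx⟩

/-- degrees: the graphs `F i` are disjoint subgraphs of `R` -/
lemma rest_dg (R : SimpleGraph V) {n : ℕ} (F : Fin n → SimpleGraph V) (hF : ∀ i, F i ≤ R)
    (hd : ∀ i j x y, (F i).Adj x y → (F j).Adj x y → i = j) (v : V) :
    dg R v = dg (rest R F) v + ∑ i, dg (F i) v := by
  have h1 : (univ.filter fun u => R.Adj v u) = (univ.filter fun u => (rest R F).Adj v u) ∪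
      univ.biUnion fun i => univ.filter fun u => (F i).Adj v u := by
    ext u
    simp only [mem_filter, mem_univ, true_and, mem_union, mem_biUnion]
    constructor
    · intro h
      by_cases hx : ∃ i, (F i).Adj v u
      · exact Or.inr hx
      · push Not at hx
        exact Or.inl ⟨h, hx⟩
    · rintro (h | ⟨i, h⟩)
      · exact h.1
      · exact hF i h
  rw [dg_card, h1, card_union_of_disjoint, card_biUnion, dg_card]
  · congr 1
    apply Finset.sum_congr rfl
    intro i _
    rw [dg_card]
  · intro i _ j _ hij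
    rw [Function.onFun, disjoint_left]
    intro u hu hu'
    rw [mem_filter] at hu hu'
    exact hij (hd i j v u hu.2 hu'.2)
  · rw [disjoint_left]
    intro u hu hu'
    rw [mem_filter] at hu
    rw [mem_biUnion] at hu'
    obtain ⟨i, _, hi⟩ := hu'
    rw [mem_filter] at hi
    exact hu.2.2 i hi.2

/-- the graphs of the classes -/
structure Frs (R : SimpleGraph V) (O : V → V → Prop) {n : ℕ} (D : Fin n → V → Option V)
    (F : Fin n → SimpleGraph V) : Prop where
  adj : ∀ i x y, (F i).Adj x y ↔ D i x = some y ∨ D i y = some x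
  lf : ∀ i, LF (F i)
  deg : ∀ i v, dg (F i) v + (if D i v = none then 1 else 0) +
    (if ∀ x, D i x ≠ some v then 1 else 0) = 2
  ori : ∀ i x y, D i x = some y → O x y
  dis : ∀ i j x y, D i x = some y → D j x = some y → i = j
  oR : ∀ x y, O x y → R.Adj x y
  asy : ∀ x y, O x y → ¬ O y x

lemma Frs.le {R : SimpleGraph V} {O : V → V → Prop} {n : ℕ} {D : Fin n → V → Option V}
    {F : Fin n → SimpleGraph V} (h : Frs R O D F) (i : Fin n) : F i ≤ R := by
  intro x y hxy
  rcases (h.adj i x y).1 hxy with h1 | h1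
  · exact h.oR x y (h.ori i x y h1)
  · exact (h.oR y x (h.ori i y x h1)).symm

lemma Frs.dj {R : SimpleGraph V} {O : V → V → Prop} {n : ℕ} {D : Fin n → V → Option V}
    {F : Fin n → SimpleGraph V} (h : Frs R O D F) (i j : Fin n) (x y : V)
    (h1 : (F i).Adj x y) (h2 : (F j).Adj x y) : i = j := by
  rcases (h.adj i x y).1 h1 with a | a <;> rcases (h.adj j x y).1 h2 with b | b
  · exact h.dis i j x y a b
  · exact absurd (h.ori j y x b) (h.asy x y (h.ori i x y a))
  · exact absurd (h.ori i y x a) (h.asy x y (h.ori j x y b))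
  · exact h.dis i j y x a b

/-- the number of missing ends at `v` -/
def miss {n : ℕ} (D : Fin n → V → Option V) (v : V) : ℕ :=
  (univ.filter fun i => D i v = none).card + (univ.filter fun i => ∀ x, D i x ≠ some v).card

lemma Frs.rest {R : SimpleGraph V} {O : V → V → Prop} {n : ℕ} {D : Fin n → V → Option V}
    {F : Fin n → SimpleGraph V} (h : Frs R O D F) (v : V) :
    dg R v + miss D v = dg (rest R F) v + 2 * n := by
  have h1 := rest_dg R F h.le h.dj v
  have h2 : (∑ i, dg (F i) v) + miss D v = 2 * n := by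
    unfold miss
    rw [Finset.card_filter, Finset.card_filter, ← Finset.sum_add_distrib,
      ← Finset.sum_add_distrib]
    have h3 : ∀ i ∈ (univ : Finset (Fin n)), dg (F i) v + ((if D i v = none then 1 else 0) +
        (if ∀ x, D i x ≠ some v then 1 else 0)) = 2 := by
      intro i _
      rw [← h.deg i v, add_assoc]
    rw [Finset.sum_congr rfl h3, Finset.sum_const, Finset.card_univ, Fintype.card_fin,
      smul_eq_mul, mul_comm]
  omega

/-- the graph of a family of partial injections along the orientation -/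
lemma mk_frs (hLFO : LFOStmt) {R : SimpleGraph V} {O : V → V → Prop} {n : ℕ}
    {D : Fin n → V → Option V} (hinj : ∀ i, C4K.PInj (D i))
    (hacy : ∀ i x m, 1 ≤ m → C4K.it (D i) m x ≠ some x)
    (ori : ∀ i x y, D i x = some y → O x y)
    (dis : ∀ i j x y, D i x = some y → D j x = some y → i = j)
    (oR : ∀ x y, O x y → R.Adj x y) (asy : ∀ x y, O x y → ¬ O y x) :
    ∃ F : Fin n → SimpleGraph V, Frs R O D F := by
  have h : ∀ i, _ := fun i => hLFO V (D i) (hinj i)
    (fun x y h1 h2 => asy x y (ori i x y h1) (ori i y x h2)) (fun x j hj => hacy i x j hj)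
  choose F h1 h2 h3 using h
  exact ⟨F, h1, h2, h3, ori, dis, oR, asy⟩

/-- edges which are left are optional or marked -/
lemma rest_TT {K s n : ℕ} {R : SimpleGraph V} {O : V → V → Prop} {ω η : Sym2 V → Fin K}
    {f D : Fin n → V → Option V} {F : Fin n → SimpleGraph V} (hO : Ori R O) (h : Frs R O D F)
    (hcov : ∀ p ∈ Rf O s ω, ∃ i, f i p.1 = some p.2)
    (hun : ∀ i x, ¬ Mk s η f i x → D i x = f i x) : rest R F ≤ TT R s ω η := by
  have key : ∀ x y, O x y → (∀ i, ¬ (F i).Adj x y) →
      (typ K s (ω s(x, y)) ≠ none ∨ mkd s η x y) := by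
    intro x y hxy hF
    by_cases ht : typ K s (ω s(x, y)) = none
    · right
      obtain ⟨i, hi⟩ := hcov (x, y) ⟨hxy, ht⟩
      by_contra hm
      have h1 : ¬ Mk s η f i x := by
        rintro ⟨y', h2, h3⟩
        have h4 : some y = some y' := by rw [← h2]; exact hi.symm
        rw [Option.some.injEq] at h4
        rw [← h4] at h3
        exact hm h3
      have h5 := hun i x h1
      exact hF i ((h.adj i x y).2 (Or.inl (h5.trans hi)))
    · exact Or.inl ht
  intro x y hxy
  refine ⟨hxy.1, ?_⟩
  rcases (hO.adj x y).1 hxy.1 with h1 | h1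
  · exact key x y h1 hxy.2
  · have h2 := key y x h1 (fun i h' => hxy.2 i h'.symm)
    rw [Sym2.eq_swap]
    rcases h2 with h3 | h3
    · exact Or.inl h3
    · right
      unfold mkd at h3 ⊢
      rw [Sym2.eq_swap]
      exact h3

end Pool.Agent.C4N.H7
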