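import Pool.Agent.Helper7_C4N.Rou1

/-!
# ROU, part 2: numbers
-/

set_option autoImplicit false

open scoped BigOperators Classical

noncomputable section

namespace Pool.Agent.C4N.H7

open Finset

lemma big (a B : ℝ) (ha : 0 < a) : ∃ x0 : ℝ, 1 ≤ x0 ∧ ∀ x, x0 ≤ x → B ≤ x ^ a := by
  have h := tendsto_rpow_atTop ha
  obtain ⟨x0, h0⟩ := Filter.eventually_atTop.1 (h.eventually_ge_atTop B)
  exact ⟨max 1 x0, le_max_left _ _, fun x hx => h0 x ((le_max_right _ _).trans hx)⟩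

/-- `u ≤ v` up to a constant, from a large power -/
lemma pw_le {x a b B : ℝ} (hx : 1 ≤ x) (h : B ≤ x ^ (b - a)) : B * x ^ a ≤ x ^ b := by
  have h1 : 0 < x ^ a := Real.rpow_pos_of_pos (by linarith) _
  calc B * x ^ a ≤ x ^ (b - a) * x ^ a := mul_le_mul_of_nonneg_right h h1.le
    _ = x ^ b := by rw [← Real.rpow_add (by linarith)]; congr 1; ring

/-- the numbers of a round -/
structure RN (C L : ℕ) (c δ : ℝ) (K k s : ℕ) : Prop where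
  K1 : 1 ≤ K
  kC : k = K + C
  k2 : (k : ℝ) ≤ 2 * K
  s1 : 1 ≤ s
  slo : (k : ℝ) ^ (1 - 1 / 10000 : ℝ) ≤ s
  s99 : (k : ℝ) ^ (0.99 : ℝ) ≤ s
  sK : 40 * s ≤ K
  up : 41 * (s : ℝ) ≤ (K : ℝ) ^ (1 - 1 / 11000 : ℝ)
  lo : (K : ℝ) ^ (1 - 1 / 9000 : ℝ) ≤ s
  sw : (k : ℝ) ^ (0.99 : ℝ) * K ≤ 11 * (s : ℝ) * s
  e48 : (k : ℝ) ^ (-0.48 : ℝ) * (k : ℝ) ^ (0.476 : ℝ) ≤ 1 / 10
  t4 : (k : ℝ) ^ (-0.4 : ℝ) ≤ 1 / 1000
  kk : 2 * (K : ℝ) + C ≤ (k : ℝ) ^ (2 : ℝ)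
  sp : 80 * (K : ℝ) ^ (-(c / 2)) + 80 * (k : ℝ) ^ (-(c / 6)) + (k : ℝ) ^ (-(c / 18)) +
    (k : ℝ) ^ (-0.001 : ℝ) ≤ 11 * (k : ℝ) ^ (-(c / 60))
  S : (K : ℝ) ^ (1 - c) + (k : ℝ) ^ (1 - c / 6) ≤ (k : ℝ) ^ (1 - c / 9)
  S2 : (K : ℝ) ^ (-(c / 2)) + (k : ℝ) ^ (-(c / 6)) ≤ (k : ℝ) ^ (-(c / 9))
  ct : (4 : ℝ) ^ L * (K : ℝ) ^ (δ / 2) ≤ (K : ℝ) ^ δ
  E : (k : ℝ) ^ (0.52 : ℝ) + 200 + 50 * (k : ℝ) ^ (0.461 : ℝ) ≤ s / 2

lemma rn (C L : ℕ) (c δ : ℝ) (hc : 0 < c) (hc' : c ≤ 1 / 1000) (hδ : 0 < δ) :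
    ∃ K0 : ℕ, ∀ K k s : ℕ, K0 ≤ K → k = K + C → s = ss k → RN C L c δ K k s := by
  obtain ⟨x1, h11, h1⟩ := big (1 / 110000) 1000 (by norm_num)
  obtain ⟨x2, h21, h2⟩ := big (c / 18 - c / 60) 242 (by linarith)
  obtain ⟨x3, h31, h3⟩ := big (c / 6 - c / 9) 3 (by linarith)
  obtain ⟨x4, h41, h4⟩ := big (δ / 2) ((4 : ℝ) ^ L) (by linarith)
  obtain ⟨x5, h51, h5⟩ := big (0.004) 10 (by norm_num)
  obtain ⟨K0, hK0⟩ := exists_nat_gt (max (max x1 x2) (max (max x3 x4) x5) + C + 2000)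
  refine ⟨K0, ?_⟩
  intro K k s hK hk hs
  have hKr : (K0 : ℝ) ≤ K := by exact_mod_cast hK
  have hkr : (k : ℝ) = K + C := by rw [hk]; push_cast; ring
  have hC0 : (0 : ℝ) ≤ C := Nat.cast_nonneg C
  have m1 : x1 ≤ (K : ℝ) := by
    have := le_max_left x1 x2
    have := le_max_left (max x1 x2) (max (max x3 x4) x5)
    linarith
  have m2 : x2 ≤ (K : ℝ) := by
    have := le_max_right x1 x2
    have := le_max_left (max x1 x2) (max (max x3 x4) x5)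
    linarith
  have m3 : x3 ≤ (K : ℝ) := by
    have := le_max_left x3 x4
    have := le_max_left (max x3 x4) x5
    have := le_max_right (max x1 x2) (max (max x3 x4) x5)
    linarith
  have m4 : x4 ≤ (K : ℝ) := by
    have := le_max_right x3 x4
    have := le_max_left (max x3 x4) x5
    have := le_max_right (max x1 x2) (max (max x3 x4) x5)
    linarith
  have m5 : x5 ≤ (K : ℝ) := by
    have := le_max_right (max x3 x4) x5
    have := le_max_right (max x1 x2) (max (max x3 x4) x5)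
    linarith
  have mC : (C : ℝ) + 2000 ≤ K := by
    have := le_max_left x1 x2
    have := le_max_left (max x1 x2) (max (max x3 x4) x5)
    linarith
  have hKk : (K : ℝ) ≤ k := by linarith
  have hK1 : (1 : ℝ) ≤ K := by linarith
  have hk1 : (1 : ℝ) ≤ k := by linarith
  have hK0' : (0 : ℝ) < K := by linarith
  have hk0 : (0 : ℝ) < k := by linarith
  have hk2 : (k : ℝ) ≤ 2 * K := by linarith
  have slo : (k : ℝ) ^ (1 - 1 / 10000 : ℝ) ≤ s := by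
    rw [hs]; unfold ss; exact Nat.le_ceil _
  have shi : (s : ℝ) ≤ 2 * (k : ℝ) ^ (1 - 1 / 10000 : ℝ) := by
    have e1 : (s : ℝ) < (k : ℝ) ^ (1 - 1 / 10000 : ℝ) + 1 := by
      rw [hs]; unfold ss
      exact Nat.ceil_lt_add_one (Real.rpow_nonneg (by linarith) _)
    have e2 : (1 : ℝ) ≤ (k : ℝ) ^ (1 - 1 / 10000 : ℝ) := Real.one_le_rpow hk1 (by norm_num)
    linarith
  have up : 41 * (s : ℝ) ≤ (K : ℝ) ^ (1 - 1 / 11000 : ℝ) := by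
    have e1 : (k : ℝ) ^ (1 - 1 / 10000 : ℝ) ≤ 2 * (K : ℝ) ^ (1 - 1 / 10000 : ℝ) := by
      calc (k : ℝ) ^ (1 - 1 / 10000 : ℝ) ≤ (2 * K) ^ (1 - 1 / 10000 : ℝ) :=
            Real.rpow_le_rpow hk0.le hk2 (by norm_num)
        _ = 2 ^ (1 - 1 / 10000 : ℝ) * (K : ℝ) ^ (1 - 1 / 10000 : ℝ) :=
            Real.mul_rpow (by norm_num) hK0'.le
        _ ≤ 2 ^ (1 : ℝ) * (K : ℝ) ^ (1 - 1 / 10000 : ℝ) := by
            apply mul_le_mul_of_nonneg_right _ (Real.rpow_nonneg hK0'.le _)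
            exact Real.rpow_le_rpow_of_exponent_le (by norm_num) (by norm_num)
        _ = _ := by rw [Real.rpow_one]
    have e2 : 1000 * (K : ℝ) ^ (1 - 1 / 10000 : ℝ) ≤ (K : ℝ) ^ (1 - 1 / 11000 : ℝ) := by
      apply pw_le hK1
      have : (1 - 1 / 11000 - (1 - 1 / 10000) : ℝ) = 1 / 110000 := by norm_num
      rw [this]
      exact h1 K m1
    have e3 : 0 ≤ (K : ℝ) ^ (1 - 1 / 10000 : ℝ) := Real.rpow_nonneg hK0'.le _
    linarith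
  have lo : (K : ℝ) ^ (1 - 1 / 9000 : ℝ) ≤ s := by
    refine le_trans ?_ slo
    calc (K : ℝ) ^ (1 - 1 / 9000 : ℝ) ≤ (K : ℝ) ^ (1 - 1 / 10000 : ℝ) :=
          Real.rpow_le_rpow_of_exponent_le hK1 (by norm_num)
      _ ≤ _ := Real.rpow_le_rpow hK0'.le hKk (by norm_num)
  have hKup : (K : ℝ) ^ (1 - 1 / 11000 : ℝ) ≤ K := by
    calc (K : ℝ) ^ (1 - 1 / 11000 : ℝ) ≤ (K : ℝ) ^ (1 : ℝ) :=
          Real.rpow_le_rpow_of_exponent_le hK1 (by norm_num)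
      _ = K := Real.rpow_one _
  have s1 : (1 : ℝ) ≤ s := le_trans (Real.one_le_rpow hk1 (by norm_num)) slo
  have tm : ∀ a : ℝ, a ≤ -(c / 18) → (k : ℝ) ^ a ≤ (k : ℝ) ^ (-(c / 18)) := fun a ha =>
    Real.rpow_le_rpow_of_exponent_le hk1 ha
  have hcc : (K : ℝ) ^ (-(c / 2)) ≤ 2 * (k : ℝ) ^ (-(c / 2)) := by
    have e2 : (k : ℝ) ^ (c / 2) ≤ 2 * (K : ℝ) ^ (c / 2) := by
      calc (k : ℝ) ^ (c / 2) ≤ (2 * K) ^ (c / 2) :=
            Real.rpow_le_rpow hk0.le hk2 (by linarith)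
        _ = 2 ^ (c / 2) * (K : ℝ) ^ (c / 2) := Real.mul_rpow (by norm_num) hK0'.le
        _ ≤ 2 ^ (1 : ℝ) * (K : ℝ) ^ (c / 2) := by
            apply mul_le_mul_of_nonneg_right _ (Real.rpow_nonneg hK0'.le _)
            exact Real.rpow_le_rpow_of_exponent_le (by norm_num) (by linarith)
        _ = _ := by rw [Real.rpow_one]
    rw [Real.rpow_neg hK0'.le, Real.rpow_neg hk0.le, ← div_eq_mul_inv,
      le_div_iff₀ (Real.rpow_pos_of_pos hk0 _), ← div_eq_inv_mul,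
      div_le_iff₀ (Real.rpow_pos_of_pos hK0' _)]
    exact e2
  refine ⟨?_, hk, hk2, ?_, slo, ?_, ?_, up, lo, ?_, ?_, ?_, ?_, ?_, ?_, ?_, ?_, ?_⟩
  · exact_mod_cast hK1
  · exact_mod_cast s1
  · refine le_trans ?_ slo
    exact Real.rpow_le_rpow_of_exponent_le hk1 (by norm_num)
  · have : (40 : ℝ) * s ≤ K := by linarith
    exact_mod_cast this
  · have e1 : (k : ℝ) ^ (0.99 : ℝ) * K ≤ (k : ℝ) ^ (0.99 : ℝ) * k :=
      mul_le_mul_of_nonneg_left hKk (Real.rpow_nonneg hk0.le _)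
    have e2 : (k : ℝ) ^ (0.99 : ℝ) * k ≤
        (k : ℝ) ^ (1 - 1 / 10000 : ℝ) * (k : ℝ) ^ (1 - 1 / 10000 : ℝ) := by
      rw [← Real.rpow_add hk0]
      nth_rewrite 2 [← Real.rpow_one (k : ℝ)]
      rw [← Real.rpow_add hk0]
      exact Real.rpow_le_rpow_of_exponent_le hk1 (by norm_num)
    have e3 : (k : ℝ) ^ (1 - 1 / 10000 : ℝ) * (k : ℝ) ^ (1 - 1 / 10000 : ℝ) ≤ s * s :=
      mul_le_mul slo slo (Real.rpow_nonneg hk0.le _) (by linarith)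
    nlinarith
  · rw [← Real.rpow_add hk0]
    have e1 : (-0.48 + 0.476 : ℝ) = -0.004 := by norm_num
    rw [e1, Real.rpow_neg hk0.le]
    have e2 : (10 : ℝ) ≤ (k : ℝ) ^ (0.004 : ℝ) := h5 k (by linarith)
    rw [inv_eq_one_div]
    exact one_div_le_one_div_of_le (by norm_num) e2
  · rw [show (-0.4 : ℝ) = -(0.4) by norm_num, Real.rpow_neg hk0.le, inv_eq_one_div]
    apply one_div_le_one_div_of_le (by norm_num)
    refine (h1 k (by linarith)).trans ?_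
    exact Real.rpow_le_rpow_of_exponent_le hk1 (by norm_num)
  · rw [show (2 : ℝ) = ((2 : ℕ) : ℝ) by norm_num, Real.rpow_natCast]
    push_cast
    nlinarith
  · have e3 := tm (-(c / 2)) (by linarith)
    have e4 := tm (-(c / 6)) (by linarith)
    have e5 := tm (-0.001) (by linarith)
    have e6 : 242 * (k : ℝ) ^ (-(c / 18)) ≤ (k : ℝ) ^ (-(c / 60)) := by
      apply pw_le hk1
      have : (-(c / 60) - -(c / 18) : ℝ) = c / 18 - c / 60 := by ring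
      rw [this]
      exact h2 k (by linarith)
    have e7 : 0 ≤ (k : ℝ) ^ (-(c / 60)) := Real.rpow_nonneg hk0.le _
    linarith
  · have e1 : (K : ℝ) ^ (1 - c) ≤ (k : ℝ) ^ (1 - c / 6) := by
      calc (K : ℝ) ^ (1 - c) ≤ (k : ℝ) ^ (1 - c) :=
            Real.rpow_le_rpow hK0'.le hKk (by linarith)
        _ ≤ _ := Real.rpow_le_rpow_of_exponent_le hk1 (by linarith)
    have e2 : 3 * (k : ℝ) ^ (1 - c / 6) ≤ (k : ℝ) ^ (1 - c / 9) := by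
      apply pw_le hk1
      have : (1 - c / 9 - (1 - c / 6) : ℝ) = c / 6 - c / 9 := by ring
      rw [this]
      exact h3 k (by linarith)
    have e3 : 0 ≤ (k : ℝ) ^ (1 - c / 6) := Real.rpow_nonneg hk0.le _
    linarith
  · have e3 : (k : ℝ) ^ (-(c / 2)) ≤ (k : ℝ) ^ (-(c / 6)) :=
      Real.rpow_le_rpow_of_exponent_le hk1 (by linarith)
    have e6 : 3 * (k : ℝ) ^ (-(c / 6)) ≤ (k : ℝ) ^ (-(c / 9)) := by
      apply pw_le hk1
      have : (-(c / 9) - -(c / 6) : ℝ) = c / 6 - c / 9 := by ring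
      rw [this]
      exact h3 k (by linarith)
    linarith
  · apply pw_le hK1
    have : (δ - δ / 2 : ℝ) = δ / 2 := by ring
    rw [this]
    exact h4 K m4
  · have e1 : 1000 * (k : ℝ) ^ (0.52 : ℝ) ≤ (k : ℝ) ^ (1 - 1 / 10000 : ℝ) := by
      apply pw_le hk1
      refine (h1 k (by linarith)).trans ?_
      exact Real.rpow_le_rpow_of_exponent_le hk1 (by norm_num)
    have e2 : (k : ℝ) ^ (0.461 : ℝ) ≤ (k : ℝ) ^ (0.52 : ℝ) :=
      Real.rpow_le_rpow_of_exponent_le hk1 (by norm_num)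
    have e3 : (1 : ℝ) ≤ (k : ℝ) ^ (0.52 : ℝ) := Real.one_le_rpow hk1 (by norm_num)
    linarith

/-- a prime number of labels -/
lemma prime_M : ∃ k0 : ℕ, ∀ k : ℕ, k0 ≤ k → ∃ M : ℕ, M.Prime ∧ (k : ℝ) ^ (0.539 : ℝ) ≤ M ∧
    (M : ℝ) ≤ (k : ℝ) ^ (0.54 : ℝ) := by
  obtain ⟨x1, h11, h1⟩ := big (0.001) 4 (by norm_num)
  obtain ⟨k0, hk0⟩ := exists_nat_gt x1
  refine ⟨k0, ?_⟩
  intro k hk
  have hkr : (k0 : ℝ) ≤ k := by exact_mod_cast hk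
  have hk1 : (1 : ℝ) ≤ k := by linarith
  have e1 : (1 : ℝ) ≤ (k : ℝ) ^ (0.539 : ℝ) := Real.one_le_rpow hk1 (by norm_num)
  have e2 : ⌈(k : ℝ) ^ (0.539 : ℝ)⌉₊ ≠ 0 := by
    have : 0 < ⌈(k : ℝ) ^ (0.539 : ℝ)⌉₊ := Nat.ceil_pos.2 (by linarith)
    omega
  obtain ⟨M, hM, hlt, hle⟩ := Nat.exists_prime_lt_and_le_two_mul _ e2
  refine ⟨M, hM, ?_, ?_⟩
  · refine (Nat.le_ceil _).trans ?_
    exact_mod_cast hlt.le
  · have e3 : (M : ℝ) ≤ 2 * ⌈(k : ℝ) ^ (0.539 : ℝ)⌉₊ := by exact_mod_cast hle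
    have e4 : (⌈(k : ℝ) ^ (0.539 : ℝ)⌉₊ : ℝ) < (k : ℝ) ^ (0.539 : ℝ) + 1 :=
      Nat.ceil_lt_add_one (by linarith)
    have e5 : 4 * (k : ℝ) ^ (0.539 : ℝ) ≤ (k : ℝ) ^ (0.54 : ℝ) := by
      apply pw_le hk1
      have : (0.54 - 0.539 : ℝ) = 0.001 := by norm_num
      rw [this]
      exact h1 k (by linarith)
    linarith

end Pool.Agent.C4N.H7
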