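import Pool.Agent.Helper7_C4N.Rou2

/-!
# ROU, part 3: the number of classes, degrees of the sampled graph
-/

set_option autoImplicit false

open scoped BigOperators Classical

noncomputable section

namespace Pool.Agent.C4N.H7

open Finset
open Pool.Agent.C4W (outN inN NReg)

variable {V : Type} [Fintype V]

/-- bounds of a weighted optional row -/
lemma row_bd {k s : ℕ} {O : Set (V × V)} (hr : NReg k s O) (ht : (k : ℝ) ^ (-0.4 : ℝ) ≤ 1 / 1000)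
    {β : V → V → ℝ} (hb : ∀ x y, 3 / 10 ≤ β x y ∧ β x y ≤ 7 / 10) (x : V) :
    0 ≤ ∑ y ∈ outN O x, β x y ∧ ∑ y ∈ outN O x, β x y ≤ 7 / 10 * (s * (1 + 1 / 1000)) := by
  have h1 := (hr x).1
  rw [abs_le] at h1
  have hs : (0 : ℝ) ≤ s := Nat.cast_nonneg s
  have h2 : (s : ℝ) * (k : ℝ) ^ (-0.4 : ℝ) ≤ s * (1 / 1000) := mul_le_mul_of_nonneg_left ht hs
  constructor
  · exact Finset.sum_nonneg fun y _ => by have := (hb x y).1; linarith
  · calc ∑ y ∈ outN O x, β x y ≤ ∑ _y ∈ outN O x, (7 / 10 : ℝ) :=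
          Finset.sum_le_sum fun y _ => (hb x y).2
      _ = (outN O x).card * (7 / 10) := by rw [Finset.sum_const, nsmul_eq_mul]
      _ ≤ _ := by nlinarith [h1.2]

/-- the number of the classes -/
lemma n_bd {C L : ℕ} {c δ : ℝ} {K k s M : ℕ} (hN : RN C L c δ K k s) {cb : ℝ} (hcb : 0 < cb)
    (Mlo : (k : ℝ) ^ (0.539 : ℝ) ≤ M) (hM2 : 2 ≤ M)
    {R : SimpleGraph V} {Rf : Set (V × V)} {O : Fin 40 → Set (V × V)}
    {β : Fin 40 → V → V → ℝ} {m : Fin 40 → ℕ} (hB : BI V k s M cb ((K : ℝ) - 40 * s) R Rf O β m)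
    {n : ℕ} (hn : n = (M - 1) * ∑ g, m g) (x : V) : n + 11 * s ≤ K ∧ K ≤ n + 41 * s := by
  have hk1 : (1 : ℝ) ≤ k := by
    have h1 := hN.K1
    have h2 := hN.kC
    have : 1 ≤ k := by omega
    exact_mod_cast this
  have hk0 : (0 : ℝ) < k := by linarith
  have hM0 : (0 : ℝ) < M := by
    have : 0 < M := by omega
    exact_mod_cast this
  have hM1 : (1 : ℝ) ≤ M := by
    have : 1 ≤ M := by omega
    exact_mod_cast this
  have hs : (1 : ℝ) ≤ s := by exact_mod_cast hN.s1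
  have hKk : (K : ℝ) ≤ k := by
    rw [hN.kC]; push_cast
    have : (0 : ℝ) ≤ C := Nat.cast_nonneg C
    linarith
  have hsK : (40 : ℝ) * s ≤ K := by exact_mod_cast hN.sK
  set k' : ℝ := (K : ℝ) - 40 * s with hk'
  have hk'0 : 0 ≤ k' := by linarith
  -- errors
  have he : 0 ≤ (k : ℝ) ^ (-cb) ∧ (k : ℝ) ^ (-cb) ≤ 1 := by
    refine ⟨Real.rpow_nonneg hk0.le _, ?_⟩
    calc (k : ℝ) ^ (-cb) ≤ (k : ℝ) ^ (0 : ℝ) :=
          Real.rpow_le_rpow_of_exponent_le hk1 (by linarith)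
      _ = 1 := Real.rpow_zero _
  have he2 : (k : ℝ) ^ (-(2 * cb)) ≤ 1 := by
    calc (k : ℝ) ^ (-(2 * cb)) ≤ (k : ℝ) ^ (0 : ℝ) :=
          Real.rpow_le_rpow_of_exponent_le hk1 (by linarith)
      _ = 1 := Real.rpow_zero _
  have hkM : k' / M ≤ (k : ℝ) ^ (0.461 : ℝ) := by
    rw [div_le_iff₀ hM0]
    calc k' ≤ k := by linarith
      _ = (k : ℝ) ^ (0.461 : ℝ) * (k : ℝ) ^ (0.539 : ℝ) := by
          rw [← Real.rpow_add hk0]
          norm_num
      _ ≤ _ := mul_le_mul_of_nonneg_left Mlo (Real.rpow_nonneg hk0.le _)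
  have hkM0 : 0 ≤ k' / M := div_nonneg hk'0 hM0.le
  have hE := hN.E
  have hb := fun g => row_bd (hB.reg g) hN.t4 (hB.bet g) x
  have h0 := hB.row0 x
  rw [abs_le] at h0
  have hr := (hB.r0 x).1
  rw [abs_le] at hr
  have hg : ∀ g : Fin 40, g ≠ 0 → (M : ℝ) * m g ≤ k' / M + 7 / 10 * (s * (1 + 1 / 1000)) + 2 := by
    intro g hg0
    have h1 := hB.row g hg0 x
    rw [abs_le] at h1
    have h2 : k' / (M : ℝ) ^ (g : ℕ) ≤ k' / M := by
      apply div_le_div_of_nonneg_left hk'0 hM0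
      have hg1 : 1 ≤ (g : ℕ) := by
        rcases Nat.eq_zero_or_pos (g : ℕ) with h | h
        · exact absurd (Fin.ext h) hg0
        · exact h
      calc (M : ℝ) = (M : ℝ) ^ 1 := (pow_one _).symm
        _ ≤ (M : ℝ) ^ (g : ℕ) := pow_le_pow_right₀ hM1 hg1
    have h3 := (hb g).2
    linarith [h1.1, h1.2, he.1, he.2, he2]
  have hm0 : (M : ℝ) * m 0 ≤ k' + (k : ℝ) ^ (0.52 : ℝ) + 7 / 10 * (s * (1 + 1 / 1000)) + 2 := by
    have h3 := (hb 0).2
    linarith [h0.1, h0.2, hr.1, hr.2, he.1, he.2, he2]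
  have hm0' : k' - (k : ℝ) ^ (0.52 : ℝ) - 2 ≤ (M : ℝ) * m 0 := by
    have h3 := (hb 0).1
    linarith [h0.1, h0.2, hr.1, hr.2, he.1, he.2, he2]
  have hsum : (M : ℝ) * (∑ g, (m g : ℝ)) ≤ k' + (k : ℝ) ^ (0.52 : ℝ) +
      40 * (7 / 10 * (s * (1 + 1 / 1000))) + 39 * (k' / M) + 80 := by
    rw [Finset.mul_sum, ← Finset.add_sum_erase _ _ (mem_univ (0 : Fin 40))]
    have h5 : ∑ g ∈ univ.erase (0 : Fin 40), (M : ℝ) * m g ≤
        ∑ _g ∈ univ.erase (0 : Fin 40), (k' / M + 7 / 10 * (s * (1 + 1 / 1000)) + 2) :=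
      Finset.sum_le_sum fun g hg' => hg g (Finset.ne_of_mem_erase hg')
    rw [Finset.sum_const, Finset.card_erase_of_mem (mem_univ _), Finset.card_univ,
      Fintype.card_fin, nsmul_eq_mul] at h5
    norm_num at h5 ⊢
    linarith
  have hnr : (n : ℝ) = ((M : ℝ) - 1) * ∑ g, (m g : ℝ) := by
    rw [hn]
    have : 1 ≤ M := by omega
    push_cast [Nat.cast_sub this]
    ring
  have hsum0 : (m 0 : ℝ) ≤ ∑ g, (m g : ℝ) :=
    Finset.single_le_sum (f := fun g => (m g : ℝ)) (fun g _ => Nat.cast_nonneg _)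
      (mem_univ (0 : Fin 40))
  have hS0 : 0 ≤ ∑ g, (m g : ℝ) := Finset.sum_nonneg fun g _ => Nat.cast_nonneg _
  have hx : (0 : ℝ) ≤ (k : ℝ) ^ (0.461 : ℝ) := Real.rpow_nonneg hk0.le _
  have hx' : (0 : ℝ) ≤ (k : ℝ) ^ (0.52 : ℝ) := Real.rpow_nonneg hk0.le _
  constructor
  · have h1 : (n : ℝ) ≤ (M : ℝ) * ∑ g, (m g : ℝ) := by
      rw [hnr, sub_mul, one_mul]
      linarith
    have h2 : (n : ℝ) + 11 * s ≤ K := by linarith
    exact_mod_cast h2
  · have h1 : ((M : ℝ) - 1) * m 0 ≤ n := by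
      rw [hnr]
      exact mul_le_mul_of_nonneg_left hsum0 (by linarith)
    have h2 : (m 0 : ℝ) ≤ (k' + (k : ℝ) ^ (0.52 : ℝ) + 7 / 10 * (s * (1 + 1 / 1000)) + 2) / M := by
      rw [le_div_iff₀ hM0]
      linarith
    have h3 : (k' + (k : ℝ) ^ (0.52 : ℝ) + 7 / 10 * (s * (1 + 1 / 1000)) + 2) / M ≤
        k' / M + (k : ℝ) ^ (0.461 : ℝ) := by
      have e1 : (k' + (k : ℝ) ^ (0.52 : ℝ) + 7 / 10 * (s * (1 + 1 / 1000)) + 2) / M =
          k' / M + ((k : ℝ) ^ (0.52 : ℝ) + 7 / 10 * (s * (1 + 1 / 1000)) + 2) / M := by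
        rw [← add_div]
        congr 1
        ring
      rw [e1]
      have e2 : ((k : ℝ) ^ (0.52 : ℝ) + 7 / 10 * (s * (1 + 1 / 1000)) + 2) / M ≤
          (k : ℝ) ^ (0.461 : ℝ) := by
        rw [div_le_iff₀ hM0]
        calc (k : ℝ) ^ (0.52 : ℝ) + 7 / 10 * (s * (1 + 1 / 1000)) + 2 ≤ k := by
              have h6 : (s : ℝ) * 40 ≤ k := by linarith
              linarith
          _ = (k : ℝ) ^ (0.461 : ℝ) * (k : ℝ) ^ (0.539 : ℝ) := by
              rw [← Real.rpow_add hk0]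
              norm_num
          _ ≤ _ := mul_le_mul_of_nonneg_left Mlo hx
      linarith
    have h4 : (K : ℝ) ≤ n + 41 * s := by
      have h5 : ((M : ℝ) - 1) * m 0 = M * m 0 - m 0 := by ring
      rw [h5] at h1
      linarith
    exact_mod_cast h4

end Pool.Agent.C4N.H7
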