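import Pool.Agent.Helper7_C4N.Rou4

/-!
# ROU, part 5: missing ends, sparsity of the new state
-/

set_option autoImplicit false
set_option linter.unusedSectionVars false

open scoped BigOperators Classical

noncomputable section

namespace Pool.Agent.C4N.H7

open Finset
open Pool.Agent.C4W (outN inN NReg)

variable {V : Type} [Fintype V]

/-- missing ends: one from the base, the others are losses -/
lemma miss_le {n C0 : ℕ} (Cs : Fin n → C4K.Cl V) (f D : Fin n → V → Option V)
    (hCf : ∀ i, (Cs i).f = f i) (hout : C4K.Out Cs C0 D)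
    (hone : ∀ x, (univ.filter fun i => f i x = none).card +
      (univ.filter fun i => ∀ y, f i y ≠ some x).card ≤ 1) (v : V) :
    miss D v ≤ 1 + C0 := by
  have h1 := hout.def' v
  have h2 := hone v
  have e1 : (univ.filter fun i => D i v = none).card ≤
      (univ.filter fun i => f i v = none).card +
      (univ.filter fun c => (∃ y, (Cs c).f v = some y) ∧ D c v = none).card := by
    refine le_trans (Finset.card_le_card (t := (univ.filter fun i => f i v = none) ∪
      (univ.filter fun c => (∃ y, (Cs c).f v = some y) ∧ D c v = none)) ?_)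
      (Finset.card_union_le _ _)
    intro i hi
    rw [mem_filter] at hi
    rw [mem_union, mem_filter, mem_filter]
    by_cases h : f i v = none
    · exact Or.inl ⟨mem_univ _, h⟩
    · obtain ⟨y, hy⟩ := Option.ne_none_iff_exists'.1 h
      exact Or.inr ⟨mem_univ _, ⟨y, by rw [hCf]; exact hy⟩, hi.2⟩
  have e2 : (univ.filter fun i => ∀ x, D i x ≠ some v).card ≤
      (univ.filter fun i => ∀ y, f i y ≠ some v).card +
      (univ.filter fun c => (∃ x, (Cs c).f x = some v) ∧ ∀ x, D c x ≠ some v).card := by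
    refine le_trans (Finset.card_le_card (t := (univ.filter fun i => ∀ y, f i y ≠ some v) ∪
      (univ.filter fun c => (∃ x, (Cs c).f x = some v) ∧ ∀ x, D c x ≠ some v)) ?_)
      (Finset.card_union_le _ _)
    intro i hi
    rw [mem_filter] at hi
    rw [mem_union, mem_filter, mem_filter]
    by_cases h : ∀ y, f i y ≠ some v
    · exact Or.inl ⟨mem_univ _, h⟩
    · push Not at h
      obtain ⟨y, hy⟩ := h
      exact Or.inr ⟨mem_univ _, ⟨y, by rw [hCf]; exact hy⟩, hi.2⟩
  unfold miss
  omega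

/-- a vertex with a missing end outside the special set has a loss -/
lemma lose_of_miss {n : ℕ} (Cs : Fin n → C4K.Cl V) (f D : Fin n → V → Option V)
    (hCf : ∀ i, (Cs i).f = f i) (Z : Finset V)
    (hdom : ∀ i x, x ∉ Z → (∃ y, f i x = some y) ∧ ∃ y, f i y = some x) (v : V) (hv : v ∉ Z)
    (hm : miss D v ≠ 0) : ∃ i, C4K.lose Cs D i v := by
  by_contra hcon
  push Not at hcon
  apply hm
  unfold miss
  have e1 : (univ.filter fun i => D i v = none) = ∅ := by
    ext i
    simp only [mem_filter, mem_univ, true_and, notMem_empty, iff_false]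
    intro h
    obtain ⟨y, hy⟩ := (hdom i v hv).1
    exact hcon i (Or.inl ⟨⟨y, by rw [hCf]; exact hy⟩, h⟩)
  have e2 : (univ.filter fun i => ∀ x, D i x ≠ some v) = ∅ := by
    ext i
    simp only [mem_filter, mem_univ, true_and, notMem_empty, iff_false]
    intro h
    obtain ⟨y, hy⟩ := (hdom i v hv).2
    exact hcon i (Or.inr ⟨⟨y, by rw [hCf]; exact hy⟩, h⟩)
  rw [e1, e2]
  simp

/-- the linear statistic bounds the number of neighbours with a loss -/
lemma lin_nb {n : ℕ} (Cs : Fin n → C4K.Cl V) (D : Fin n → V → Option V) (T : SimpleGraph V)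
    {s x : ℝ} (hs : 0 < s) (v : V)
    (h : (∑ i, ∑ u, (if T.Adj v u then 1 / s else 0) *
      (if C4K.lose Cs D i u then (1 : ℝ) else 0)) ≤ x)
    (U : Finset V) (hU : ∀ u ∈ U, T.Adj v u ∧ ∃ i, C4K.lose Cs D i u) : (U.card : ℝ) ≤ s * x := by
  have h1 : (U.card : ℝ) * (1 / s) ≤ ∑ i, ∑ u, (if T.Adj v u then 1 / s else 0) *
      (if C4K.lose Cs D i u then (1 : ℝ) else 0) := by
    rw [Finset.sum_comm]
    have h00 : ∀ i u, 0 ≤ (if T.Adj v u then 1 / s else 0) *
        (if C4K.lose Cs D i u then (1 : ℝ) else 0) := by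
      intro i u
      apply mul_nonneg
      · split_ifs
        · positivity
        · exact le_rfl
      · split_ifs <;> norm_num
    have h0 : ∀ u, 0 ≤ ∑ i, (if T.Adj v u then 1 / s else 0) *
        (if C4K.lose Cs D i u then (1 : ℝ) else 0) := by
      intro u
      apply Finset.sum_nonneg
      intro i _
      exact h00 i u
    calc (U.card : ℝ) * (1 / s) = ∑ _u ∈ U, (1 / s) := by rw [Finset.sum_const, nsmul_eq_mul]
      _ ≤ ∑ u ∈ U, ∑ i, (if T.Adj v u then 1 / s else 0) *
            (if C4K.lose Cs D i u then (1 : ℝ) else 0) := by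
          apply Finset.sum_le_sum
          intro u hu
          obtain ⟨h2, i, hi⟩ := hU u hu
          have h3 := Finset.single_le_sum (s := univ) (f := fun i =>
            (if T.Adj v u then 1 / s else 0) * (if C4K.lose Cs D i u then (1 : ℝ) else 0))
            (fun i _ => h00 i u) (mem_univ i)
          simp only [if_pos h2, if_pos hi, mul_one] at h3
          simpa only [if_pos h2] using h3
      _ ≤ _ := Finset.sum_le_sum_of_subset_of_nonneg (Finset.subset_univ U)
          fun u _ _ => h0 u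
  have h2 := h1.trans h
  rw [mul_one_div, div_le_iff₀ hs] at h2
  linarith

/-- sparsity of the vertices with wrong degrees in the new state -/
lemma new_sp {k K s M n : ℕ} {c : ℝ} (hs : 1 ≤ s) {R : SimpleGraph V} {O : V → V → Prop}
    {ω η : Sym2 V → Fin K}
    (hO : Ori R O) {m : Fin 40 → ℕ} {Z : Finset V} {Zc : Fin n → Finset V}
    {f D : Fin n → V → Option V} {F : Fin n → SimpleGraph V} (hfr : Frs R O D F)
    (Cs : Fin n → C4K.Cl V) (hCf : ∀ i, (Cs i).f = f i)
    (hBO : BO V k s M (c / 3) R (Rf O s ω) (Og O s ω) m n f Z Zc)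
    (hTT : rest R F ≤ TT R s ω η)
    (hopt : ∀ g x, ((univ.filter fun y => (x, y) ∈ Og O s ω g ∧ dg R y ≠ 2 * K).card : ℝ) ≤
        s * (K : ℝ) ^ (-(c / 2)) ∧
      ((univ.filter fun y => (y, x) ∈ Og O s ω g ∧ dg R y ≠ 2 * K).card : ℝ) ≤
        s * (K : ℝ) ^ (-(c / 2)))
    (hmk : ∀ x, ({y | R.Adj x y ∧ mkd s η x y ∧
      y ∈ (univ.filter fun u => dg R u ≠ 2 * K) ∪ Z}.ncard : ℝ) ≤ s * (k : ℝ) ^ (-(c / 18)))
    (hlin : ∀ v, (∑ i, ∑ u, (if (TT R s ω η).Adj v u then 1 / (s : ℝ) else 0) *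
      (if C4K.lose Cs D i u then (1 : ℝ) else 0)) ≤ (k : ℝ) ^ (-0.001 : ℝ))
    (hn : n ≤ K) (v : V) :
    ({u | (rest R F).Adj v u ∧ dg (rest R F) u ≠ 2 * (K - n)}.ncard : ℝ) ≤
      s * (80 * (K : ℝ) ^ (-(c / 2)) + 80 * (k : ℝ) ^ (-(c / 6)) + (k : ℝ) ^ (-(c / 18)) +
        (k : ℝ) ^ (-0.001 : ℝ)) := by
  have hs0 : (0 : ℝ) < s := by
    have : 0 < s := hs
    exact_mod_cast this
  obtain ⟨U, hU⟩ : ∃ U : Finset V, U = univ.filter fun u =>
    (rest R F).Adj v u ∧ dg (rest R F) u ≠ 2 * (K - n) := ⟨_, rfl⟩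
  obtain ⟨U1, hU1⟩ : ∃ U1 : Finset V, U1 = U.filter fun u =>
    typ K s (ω s(v, u)) ≠ none ∧ dg R u ≠ 2 * K := ⟨_, rfl⟩
  obtain ⟨U2, hU2⟩ : ∃ U2 : Finset V, U2 = U.filter fun u =>
    typ K s (ω s(v, u)) ≠ none ∧ u ∈ Z := ⟨_, rfl⟩
  obtain ⟨U3, hU3⟩ : ∃ U3 : Finset V, U3 = U.filter fun u =>
    mkd s η v u ∧ u ∈ (univ.filter fun u => dg R u ≠ 2 * K) ∪ Z := ⟨_, rfl⟩
  obtain ⟨U4, hU4⟩ : ∃ U4 : Finset V, U4 = U.filter fun u =>
    ∃ i, C4K.lose Cs D i u := ⟨_, rfl⟩
  have hmU : ∀ u ∈ U, (rest R F).Adj v u ∧ dg (rest R F) u ≠ 2 * (K - n) := by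
    intro u hu
    rw [hU, mem_filter] at hu
    exact hu.2
  have hcov : U ⊆ U1 ∪ (U2 ∪ (U3 ∪ U4)) := by
    intro u hu
    obtain ⟨h1, h2⟩ := hmU u hu
    have h3 := hTT h1
    rw [mem_union, mem_union, mem_union]
    by_cases hS : u ∈ (univ.filter fun u => dg R u ≠ 2 * K) ∪ Z
    · rcases h3.2 with h | h
      · rw [mem_union, mem_filter] at hS
        rcases hS with hS | hS
        · left
          rw [hU1, mem_filter]
          exact ⟨hu, h, hS.2⟩
        · right; left
          rw [hU2, mem_filter]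
          exact ⟨hu, h, hS⟩
      · right; right; left
        rw [hU3, mem_filter]
        exact ⟨hu, h, hS⟩
    · right; right; right
      rw [mem_union, mem_filter, not_or] at hS
      have hd : dg R u = 2 * K := by
        by_contra hne
        exact hS.1 ⟨mem_univ _, hne⟩
      rw [hU4, mem_filter]
      refine ⟨hu, lose_of_miss Cs f D hCf Z ?_ u hS.2 ?_⟩
      · intro i x hx
        exact hBO.dom i x fun h => hx (hBO.sub i h)
      · intro hm
        have h4 := hfr.rest u
        rw [hd, hm] at h4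
        apply h2
        omega
  have c1 : (U1.card : ℝ) ≤ 80 * (s * (K : ℝ) ^ (-(c / 2))) := by
    apply opt_card (ω := ω) (s := s) hO v (fun u => dg R u ≠ 2 * K)
    · intro g W hW1 hW2
      rcases hW2 with hW2 | hW2
      · refine le_trans ?_ (hopt g v).1
        have : W ⊆ univ.filter fun y => (v, y) ∈ Og O s ω g ∧ dg R y ≠ 2 * K := by
          intro u hu
          rw [mem_filter]
          have h5 := hW2 hu
          unfold outN at h5
          rw [mem_filter] at h5
          exact ⟨mem_univ _, h5.2, hW1 u hu⟩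
        exact_mod_cast Finset.card_le_card this
      · refine le_trans ?_ (hopt g v).2
        have : W ⊆ univ.filter fun y => (y, v) ∈ Og O s ω g ∧ dg R y ≠ 2 * K := by
          intro u hu
          rw [mem_filter]
          have h5 := hW2 hu
          unfold inN at h5
          rw [mem_filter] at h5
          exact ⟨mem_univ _, h5.2, hW1 u hu⟩
        exact_mod_cast Finset.card_le_card this
    · intro u hu
      rw [hU1, mem_filter] at hu
      exact ⟨(hmU u hu.1).1.1, hu.2.1, hu.2.2⟩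
  have c2 : (U2.card : ℝ) ≤ 80 * (s * (k : ℝ) ^ (-(c / 6))) := by
    have hexp : (-(c / 3 / 2) : ℝ) = -(c / 6) := by ring
    apply opt_card (ω := ω) (s := s) hO v (fun u => u ∈ Z)
    · intro g W hW1 hW2
      have hd := hBO.d3 g v
      rw [hexp] at hd
      rcases hW2 with hW2 | hW2
      · refine le_trans ?_ hd.1
        exact_mod_cast Finset.card_le_card (fun u hu => mem_inter.2 ⟨hW2 hu, hW1 u hu⟩)
      · refine le_trans ?_ hd.2
        exact_mod_cast Finset.card_le_card (fun u hu => mem_inter.2 ⟨hW2 hu, hW1 u hu⟩)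
    · intro u hu
      rw [hU2, mem_filter] at hu
      exact ⟨(hmU u hu.1).1.1, hu.2.1, hu.2.2⟩
  have c3 : (U3.card : ℝ) ≤ s * (k : ℝ) ^ (-(c / 18)) := by
    refine le_trans ?_ (hmk v)
    have h3 := card_le_nc U3 {y | R.Adj v y ∧ mkd s η v y ∧
      y ∈ (univ.filter fun u => dg R u ≠ 2 * K) ∪ Z} (by
      intro u hu
      rw [hU3, mem_filter] at hu
      exact ⟨(hmU u hu.1).1.1, hu.2.1, hu.2.2⟩)
    exact_mod_cast h3
  have c4 : (U4.card : ℝ) ≤ s * (k : ℝ) ^ (-0.001 : ℝ) := by
    apply lin_nb Cs D (TT R s ω η) hs0 v (hlin v)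
    intro u hu
    rw [hU4, mem_filter] at hu
    exact ⟨hTT (hmU u hu.1).1, hu.2⟩
  have hUc : (({u | (rest R F).Adj v u ∧ dg (rest R F) u ≠ 2 * (K - n)} : Set V).ncard : ℝ) =
      U.card := by
    rw [hU, ← Set.ncard_coe_finset]
    congr 2
    ext u
    simp
  rw [hUc]
  have h6 : (U.card : ℝ) ≤ U1.card + (U2.card + (U3.card + U4.card)) := by
    have e1 := (Finset.card_le_card hcov).trans (Finset.card_union_le _ _)
    have e2 := Finset.card_union_le U2 (U3 ∪ U4)
    have e3 := Finset.card_union_le U3 U4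
    have e4 : U.card ≤ U1.card + (U2.card + (U3.card + U4.card)) := by omega
    exact_mod_cast e4
  linarith

end Pool.Agent.C4N.H7
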