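import Pool.Agent.Helper7_C4N.Rou5

/-!
# ROU, part 6: the data of the walks
-/

set_option autoImplicit false
set_option linter.unusedSectionVars false

open scoped BigOperators Classical

noncomputable section

namespace Pool.Agent.C4N.H7

open Finset
open Pool.Agent.C4W (outN inN NReg)

variable {V : Type} [Fintype V]

/-- numbers for WALKS -/
lemma nh {C L : ℕ} {c δ : ℝ} {K k s n : ℕ} (hN : RN C L c δ K k s) (h1 : n + 11 * s ≤ K)
    (h2 : K ≤ n + 41 * s) :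
    C4K.NH (k : ℝ) n (((K : ℝ) - n) * s / K) ((k : ℝ) ^ (-0.48 : ℝ)) := by
  have hs1 := hN.s1
  have hsK := hN.sK
  have hK1 : (1 : ℝ) < K := by
    have : 1 < K := by omega
    exact_mod_cast this
  have hK0 : (0 : ℝ) < K := by linarith
  have hkC : (k : ℝ) = K + C := by rw [hN.kC]; push_cast; ring
  have hC0 : (0 : ℝ) ≤ C := Nat.cast_nonneg C
  have hk0 : (0 : ℝ) ≤ k := by linarith
  have hs0 : (0 : ℝ) ≤ s := Nat.cast_nonneg s
  have h1r : (n : ℝ) + 11 * s ≤ K := by exact_mod_cast h1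
  have h2r : (K : ℝ) ≤ n + 41 * s := by exact_mod_cast h2
  have hsKr : 40 * (s : ℝ) ≤ K := by exact_mod_cast hsK
  have hn0 : (0 : ℝ) ≤ n := Nat.cast_nonneg n
  have hup : (K : ℝ) ^ (1 - 1 / 11000 : ℝ) < K := by
    calc (K : ℝ) ^ (1 - 1 / 11000 : ℝ) < (K : ℝ) ^ (1 : ℝ) :=
          Real.rpow_lt_rpow_of_exponent_lt hK1 (by norm_num)
      _ = K := Real.rpow_one _
  refine ⟨?_, ?_, ?_, ?_, Real.rpow_nonneg hk0 _, hN.e48⟩
  · by_contra hcon
    have hn : n = 0 := by omega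
    have := hN.up
    rw [hn] at h2r
    push_cast at h2r
    linarith
  · linarith
  · rw [le_div_iff₀ hK0]
    refine hN.sw.trans ?_
    exact mul_le_mul_of_nonneg_right (by linarith) hs0
  · rw [div_le_iff₀ hK0]
    have e1 : ((K : ℝ) - n) * s ≤ K * s := mul_le_mul_of_nonneg_right (by linarith) hs0
    have e2 : (s : ℝ) ≤ k := by linarith
    have e3 : (K : ℝ) * s ≤ K * k := mul_le_mul_of_nonneg_left e2 hK0.le
    linarith

lemma c4f {R : SimpleGraph V} (h : C4free R) : C4K.C4F R.Adj :=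
  ⟨fun _ _ h => h.symm, fun u h => h.ne rfl, h⟩

/-- the linear statistic -/
lemma linh {C L : ℕ} {c δ : ℝ} {K k s M n : ℕ} (hN : RN C L c δ K k s) {cb : ℝ}
    {R : SimpleGraph V} {O : V → V → Prop} {ω η : Sym2 V → Fin K} (hO : Ori R O) {k' : ℝ}
    {Rf' : Set (V × V)} {β : Fin 40 → V → V → ℝ} {m : Fin 40 → ℕ}
    (hB : BI V k s M cb k' R Rf' (Og O s ω) β m) (hhi : ∀ v, dg R v ≤ 2 * K + C)
    (hm : ∀ v, ({y | R.Adj v y ∧ mkd s η v y}.ncard : ℝ) ≤ 5 * s) :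
    C4K.LinH (k : ℝ) 2 V (fun v (_ : Fin n) u => if (TT R s ω η).Adj v u then 1 / (s : ℝ) else 0) := by
  have hs1 : (1 : ℝ) ≤ s := by exact_mod_cast hN.s1
  have hs0 : (0 : ℝ) < s := by linarith
  have hk1 : (1 : ℝ) ≤ k := by
    have h1 := hN.K1
    have h2 := hN.kC
    have : 1 ≤ k := by omega
    exact_mod_cast this
  have hk0 : (0 : ℝ) < k := by linarith
  have key : ∀ (v : V) (U : Finset V), (∀ u ∈ U, (TT R s ω η).Adj v u) →
      (U.card : ℝ) ≤ (k : ℝ) ^ (((2 : ℕ) : ℝ)) := by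
    intro v U hU
    have h1 : U.card ≤ dg R v := by
      unfold dg
      apply card_le_nc
      intro u hu
      exact (hU u hu).1
    have h2 : (U.card : ℝ) ≤ 2 * K + C := by exact_mod_cast h1.trans (hhi v)
    refine h2.trans (hN.kk.trans (le_of_eq ?_))
    norm_num
  refine ⟨?_, ?_, ?_, ?_, ?_⟩
  · intro v i u
    split_ifs
    · positivity
    · exact le_rfl
  · intro v i u
    split_ifs
    · rw [show (-0.99 : ℝ) = -(0.99) by norm_num, Real.rpow_neg hk0.le, ← one_div]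
      exact one_div_le_one_div_of_le (Real.rpow_pos_of_pos hk0 _) hN.s99
    · exact Real.rpow_nonneg hk0.le _
  · intro v i
    rw [← Finset.sum_filter, Finset.sum_const, nsmul_eq_mul, mul_one_div, div_le_iff₀ hs0]
    apply TT_dg hO hB hN.t4 v (hm v)
    intro u hu
    rw [mem_filter] at hu
    exact hu.2
  · intro v
    apply key v
    intro u hu
    rw [mem_filter] at hu
    obtain ⟨_, _, h⟩ := hu
    by_contra hcon
    exact h (if_neg hcon)
  · intro v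
    apply key v
    intro u hu
    rw [mem_filter] at hu
    obtain ⟨_, _, h⟩ := hu
    by_contra hcon
    exact h (if_neg fun h' => hcon h'.symm)

/-- the set `S` -/
lemma s_sp {C L : ℕ} {c δ : ℝ} {K k s M n : ℕ} (hN : RN C L c δ K k s) {R : SimpleGraph V}
    {O : V → V → Prop} {ω : Sym2 V → Fin K} {m : Fin 40 → ℕ} {Z : Finset V}
    {Zc : Fin n → Finset V} {f : Fin n → V → Option V}
    (hBO : BO V k s M (c / 3) R (Rf O s ω) (Og O s ω) m n f Z Zc)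
    (hsp : ∀ v, ({u | R.Adj v u ∧ dg R u ≠ 2 * K}.ncard : ℝ) ≤ (K : ℝ) ^ (1 - c)) (v : V) :
    ({u | R.Adj v u ∧ u ∈ (univ.filter fun u => dg R u ≠ 2 * K) ∪ Z}.ncard : ℝ) ≤
      (k : ℝ) ^ (1 - c / 9) := by
  have h1 : ({u | R.Adj v u ∧ u ∈ (univ.filter fun u => dg R u ≠ 2 * K) ∪ Z} : Set V) ⊆
      {u | R.Adj v u ∧ dg R u ≠ 2 * K} ∪ {y | R.Adj v y ∧ y ∈ Z} := by
    rintro u ⟨h1, h2⟩
    rw [mem_union, mem_filter] at h2
    rcases h2 with h2 | h2
    · exact Or.inl ⟨h1, h2.2⟩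
    · exact Or.inr ⟨h1, h2⟩
  have h2 := (Set.ncard_le_ncard h1 (Set.toFinite _)).trans (Set.ncard_union_le _ _)
  have h3 : ({u | R.Adj v u ∧ u ∈ (univ.filter fun u => dg R u ≠ 2 * K) ∪ Z}.ncard : ℝ) ≤
      ({u | R.Adj v u ∧ dg R u ≠ 2 * K}.ncard : ℝ) + ({y | R.Adj v y ∧ y ∈ Z}.ncard : ℝ) := by
    exact_mod_cast h2
  have h4 := hBO.d2 v
  rw [show (c / 3 / 2 : ℝ) = c / 6 by ring] at h4
  have h5 := hN.S
  have h6 := hsp v
  linarith

lemma s_sp2 {C L : ℕ} {c δ : ℝ} {K k s M n : ℕ} (hN : RN C L c δ K k s) {R : SimpleGraph V}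
    {O : V → V → Prop} {ω : Sym2 V → Fin K} {m : Fin 40 → ℕ} {Z : Finset V}
    {Zc : Fin n → Finset V} {f : Fin n → V → Option V}
    (hBO : BO V k s M (c / 3) R (Rf O s ω) (Og O s ω) m n f Z Zc)
    (hopt : ∀ g x, ((univ.filter fun y => (x, y) ∈ Og O s ω g ∧ dg R y ≠ 2 * K).card : ℝ) ≤
        s * (K : ℝ) ^ (-(c / 2)) ∧
      ((univ.filter fun y => (y, x) ∈ Og O s ω g ∧ dg R y ≠ 2 * K).card : ℝ) ≤
        s * (K : ℝ) ^ (-(c / 2))) (g : Fin 40) (x : V) :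
    ((outN (Og O s ω g) x ∩ ((univ.filter fun u => dg R u ≠ 2 * K) ∪ Z)).card : ℝ) ≤
        s * (k : ℝ) ^ (-(c / 9)) ∧
      ((inN (Og O s ω g) x ∩ ((univ.filter fun u => dg R u ≠ 2 * K) ∪ Z)).card : ℝ) ≤
        s * (k : ℝ) ^ (-(c / 9)) := by
  have hs0 : (0 : ℝ) ≤ s := Nat.cast_nonneg s
  have h4 := hBO.d3 g x
  rw [show (-(c / 3 / 2) : ℝ) = -(c / 6) by ring] at h4
  have h5 : (s : ℝ) * (K : ℝ) ^ (-(c / 2)) + s * (k : ℝ) ^ (-(c / 6)) ≤
      s * (k : ℝ) ^ (-(c / 9)) := by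
    rw [← mul_add]
    exact mul_le_mul_of_nonneg_left hN.S2 hs0
  have h6 := hopt g x
  constructor
  · have h1 : outN (Og O s ω g) x ∩ ((univ.filter fun u => dg R u ≠ 2 * K) ∪ Z) ⊆
        (univ.filter fun y => (x, y) ∈ Og O s ω g ∧ dg R y ≠ 2 * K) ∪
          (outN (Og O s ω g) x ∩ Z) := by
      intro u hu
      rw [mem_inter, mem_union, mem_filter] at hu
      rw [mem_union, mem_inter, mem_filter]
      obtain ⟨h1, h2⟩ := hu
      rcases h2 with h2 | h2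
      · left
        have h7 := h1
        unfold outN at h7
        rw [mem_filter] at h7
        exact ⟨mem_univ _, h7.2, h2.2⟩
      · exact Or.inr ⟨h1, h2⟩
    have h2 : ((outN (Og O s ω g) x ∩ ((univ.filter fun u => dg R u ≠ 2 * K) ∪ Z)).card : ℝ) ≤
        ((univ.filter fun y => (x, y) ∈ Og O s ω g ∧ dg R y ≠ 2 * K).card : ℝ) +
          ((outN (Og O s ω g) x ∩ Z).card : ℝ) := by
      exact_mod_cast (Finset.card_le_card h1).trans (Finset.card_union_le _ _)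
    linarith [h6.1, h4.1]
  · have h1 : inN (Og O s ω g) x ∩ ((univ.filter fun u => dg R u ≠ 2 * K) ∪ Z) ⊆
        (univ.filter fun y => (y, x) ∈ Og O s ω g ∧ dg R y ≠ 2 * K) ∪
          (inN (Og O s ω g) x ∩ Z) := by
      intro u hu
      rw [mem_inter, mem_union, mem_filter] at hu
      rw [mem_union, mem_inter, mem_filter]
      obtain ⟨h1, h2⟩ := hu
      rcases h2 with h2 | h2
      · left
        have h7 := h1
        unfold inN at h7
        rw [mem_filter] at h7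
        exact ⟨mem_univ _, h7.2, h2.2⟩
      · exact Or.inr ⟨h1, h2⟩
    have h2 : ((inN (Og O s ω g) x ∩ ((univ.filter fun u => dg R u ≠ 2 * K) ∪ Z)).card : ℝ) ≤
        ((univ.filter fun y => (y, x) ∈ Og O s ω g ∧ dg R y ≠ 2 * K).card : ℝ) +
          ((inN (Og O s ω g) x ∩ Z).card : ℝ) := by
      exact_mod_cast (Finset.card_le_card h1).trans (Finset.card_union_le _ _)
    linarith [h6.2, h4.2]

/-- the path counts of the new state -/
lemma new_ct {C L : ℕ} {c δ : ℝ} {K k s n : ℕ} (hN : RN C L c δ K k s) (hδ : 0 < δ)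
    (h1 : n + 11 * s ≤ K) {A Q : ℝ} (hA : 1 ≤ A) (hQ : 1 ≤ Q) {G G' : SimpleGraph V}
    (h : G ≤ G')
    (hc : Cnt (ind G') L ((K : ℝ) ^ (δ / 4) * ((K : ℝ) ^ (δ / (4 * (L + 1))) * A ^ L) ^ L)
      (41 * s) Q) :
    Cnt (ind G) L ((K : ℝ) ^ δ * A ^ (L * L)) ((K - n : ℕ) : ℝ) Q := by
  have hK1 : (1 : ℝ) ≤ K := by exact_mod_cast hN.K1
  have hK0 : (0 : ℝ) < K := by linarith
  have hs0 : (0 : ℝ) ≤ s := Nat.cast_nonneg s
  have hnK : n ≤ K := by omega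
  have h1r : (n : ℝ) + 11 * s ≤ K := by exact_mod_cast h1
  apply cnt_mono h _ _ _ (Nat.cast_nonneg _) hQ _ hc
  · positivity
  · linarith
  · rw [Nat.cast_sub hnK]
    linarith
  · have e1 : ((K : ℝ) ^ (δ / (4 * (L + 1))) * A ^ L) ^ L =
        (K : ℝ) ^ (δ / (4 * (L + 1)) * L) * A ^ (L * L) := by
      rw [mul_pow, ← pow_mul, Real.rpow_mul hK0.le, Real.rpow_natCast]
    have e2 : (K : ℝ) ^ (δ / 4) * (K : ℝ) ^ (δ / (4 * (L + 1)) * L) ≤ (K : ℝ) ^ (δ / 2) := by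
      rw [← Real.rpow_add hK0]
      apply Real.rpow_le_rpow_of_exponent_le hK1
      have hL : (0 : ℝ) ≤ L := Nat.cast_nonneg L
      have : δ / (4 * (L + 1)) * L ≤ δ / 4 := by
        rw [div_mul_eq_mul_div, div_le_div_iff₀ (by positivity) (by norm_num)]
        nlinarith
      linarith
    have hA0 : 0 ≤ A ^ (L * L) := by positivity
    rw [e1]
    calc 4 ^ L * ((K : ℝ) ^ (δ / 4) * ((K : ℝ) ^ (δ / (4 * (L + 1)) * L) * A ^ (L * L)))
        = 4 ^ L * ((K : ℝ) ^ (δ / 4) * (K : ℝ) ^ (δ / (4 * (L + 1)) * L)) * A ^ (L * L) := by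
          ring
      _ ≤ 4 ^ L * (K : ℝ) ^ (δ / 2) * A ^ (L * L) := by
          apply mul_le_mul_of_nonneg_right _ hA0
          exact mul_le_mul_of_nonneg_left e2 (by positivity)
      _ ≤ (K : ℝ) ^ δ * A ^ (L * L) := mul_le_mul_of_nonneg_right hN.ct hA0

/-- sparsity, last step -/
lemma new_sp' {C L : ℕ} {c δ : ℝ} {K k s n : ℕ} (hN : RN C L c δ K k s) (hc : 0 < c)
    (h1 : n + 11 * s ≤ K) :
    s * (80 * (K : ℝ) ^ (-(c / 2)) + 80 * (k : ℝ) ^ (-(c / 6)) + (k : ℝ) ^ (-(c / 18)) +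
        (k : ℝ) ^ (-0.001 : ℝ)) ≤ ((K - n : ℕ) : ℝ) ^ (1 - c / 60) := by
  have hs0 : (0 : ℝ) ≤ s := Nat.cast_nonneg s
  have hnK : n ≤ K := by omega
  have h1r : (n : ℝ) + 11 * s ≤ K := by exact_mod_cast h1
  have hs1 := hN.s1
  have hpos : (0 : ℝ) < ((K - n : ℕ) : ℝ) := by
    have : 0 < K - n := by omega
    exact_mod_cast this
  have hle : ((K - n : ℕ) : ℝ) ≤ k := by
    have h2 := hN.kC
    have : K - n ≤ k := by omega
    exact_mod_cast this
  have h11 : 11 * (s : ℝ) ≤ ((K - n : ℕ) : ℝ) := by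
    rw [Nat.cast_sub hnK]
    linarith
  have hk0 : (0 : ℝ) < k := lt_of_lt_of_le hpos hle
  calc (s : ℝ) * (80 * (K : ℝ) ^ (-(c / 2)) + 80 * (k : ℝ) ^ (-(c / 6)) + (k : ℝ) ^ (-(c / 18)) +
        (k : ℝ) ^ (-0.001 : ℝ)) ≤ s * (11 * (k : ℝ) ^ (-(c / 60))) :=
        mul_le_mul_of_nonneg_left hN.sp hs0
    _ = 11 * s * (k : ℝ) ^ (-(c / 60)) := by ring
    _ ≤ ((K - n : ℕ) : ℝ) * (k : ℝ) ^ (-(c / 60)) :=
        mul_le_mul_of_nonneg_right h11 (Real.rpow_nonneg hk0.le _)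
    _ ≤ ((K - n : ℕ) : ℝ) * ((K - n : ℕ) : ℝ) ^ (-(c / 60)) := by
        apply mul_le_mul_of_nonneg_left _ hpos.le
        exact Real.rpow_le_rpow_of_nonpos hpos hle (by linarith)
    _ = ((K - n : ℕ) : ℝ) ^ (1 - c / 60) := by
        nth_rewrite 1 [← Real.rpow_one ((K - n : ℕ) : ℝ)]
        rw [← Real.rpow_add hpos]
        congr 1

end Pool.Agent.C4N.H7
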